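import Mathlib

/-!
# MP_2970b2_an: the second coefficient in convex classes with boundary curvature bounds

For `0 ≤ R₁ ≤ R₂` the class `CV(R₁, R₂)` is nonempty if and only if `R₁ ≤ 1` and `0 < R₂`, and then
`A(R₁, R₂) = √(1 - R₁)`.

Proof of the bound: put `a = f''(0)/2`, `q = f''/f'`, `p = 1 + z q` and `F = f' (1 - a z)²`.  On the
unit circle the real part of
`H = (1 + |a|²) (1 + z q) - a z (1 + z q) - ā q - a z` is `|1 - a z|² Re p ≥ R₁ |F|`, so
`R₁ = R₁ F(0) ≤ Re H(0) = 1 - |a|²` by the mean value property.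
-/

set_option autoImplicit false

open Complex Metric Set Real

namespace Pool.Agent.Results.MP_2970b2_an.SecondCoefficient

/-- The curvature of the boundary curve at the image of `z`, where `g₁`, `g₂` are the (extended)
first and second derivatives. -/
noncomputable def curvature (g₁ g₂ : ℂ → ℂ) (z : ℂ) : ℝ := (1 + z * g₂ z / g₁ z).re / ‖g₁ z‖

/-- The class `CV(R₁, R₂)`: normalised univalent convex functions on the unit disc, such that `f`,
`f'`, `f''` extend continuously to the closed disc, with `f'` without zeros there, and the curvature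
of the boundary curve lies in `[R₁, R₂]` everywhere. -/
structure InCV (R₁ R₂ : ℝ) (f : ℂ → ℂ) : Prop where
  diff : DifferentiableOn ℂ f (ball 0 1)
  inj : InjOn f (ball 0 1)
  convex : Convex ℝ (f '' ball 0 1)
  zero : f 0 = 0
  one : deriv f 0 = 1
  bdry : ∃ g₀ g₁ g₂ : ℂ → ℂ, ContinuousOn g₀ (closedBall 0 1) ∧ ContinuousOn g₁ (closedBall 0 1) ∧
    ContinuousOn g₂ (closedBall 0 1) ∧
    (∀ z ∈ ball (0 : ℂ) 1, g₀ z = f z ∧ g₁ z = deriv f z ∧ g₂ z = deriv (deriv f) z) ∧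
    (∀ z ∈ closedBall (0 : ℂ) 1, g₁ z ≠ 0) ∧
    ∀ z ∈ sphere (0 : ℂ) 1, R₁ ≤ curvature g₁ g₂ z ∧ curvature g₁ g₂ z ≤ R₂

/-- The second coefficient `a₂ = f''(0)/2`. -/
noncomputable def coef2 (f : ℂ → ℂ) : ℂ := deriv (deriv f) 0 / 2

lemma avg_re {K : ℂ → ℂ} (hK : DiffContOnCl ℂ K (ball 0 1)) :
    circleAverage (fun z => (K z).re) 0 1 = (K 0).re := by
  have h1 : circleAverage K 0 1 = K 0 := by
    have := DiffContOnCl.circleAverage (f := K) (c := 0) (R := 1) (by simpa using hK)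
    exact this
  have hint : CircleIntegrable K 0 1 := by
    apply ContinuousOn.circleIntegrable (by norm_num)
    exact (hK.continuousOn_ball).mono sphere_subset_closedBall
  have h2 := Complex.reCLM.circleAverage_comp_comm hint
  have h3 : (Complex.reCLM ∘ K) = fun z => (K z).re := rfl
  rw [h3, h1] at h2
  exact h2

lemma re_nonneg {K : ℂ → ℂ} (hK : DiffContOnCl ℂ K (ball 0 1))
    (h : ∀ z ∈ sphere (0 : ℂ) 1, 0 ≤ (K z).re) : 0 ≤ (K 0).re := by
  rw [← avg_re hK]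
  apply circleAverage_nonneg_of_nonneg
  simpa using h

/-- if the mean of a nonnegative continuous function over the circle vanishes, it vanishes -/
lemma re_zero {K : ℂ → ℂ} (hK : DiffContOnCl ℂ K (ball 0 1))
    (h : ∀ z ∈ sphere (0 : ℂ) 1, 0 ≤ (K z).re) (h0 : (K 0).re = 0) :
    ∀ z ∈ sphere (0 : ℂ) 1, (K z).re = 0 := by
  have h1 := avg_re hK
  rw [h0, circleAverage_def] at h1
  have h2 : ∫ θ in (0 : ℝ)..2 * π, (K (circleMap 0 1 θ)).re = 0 := by
    have : (2 * π)⁻¹ ≠ 0 := by positivity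
    simpa [this] using h1
  have hmem : ∀ θ : ℝ, circleMap 0 1 θ ∈ sphere (0 : ℂ) 1 := fun θ =>
    circleMap_mem_sphere (0 : ℂ) zero_le_one θ
  have hc : Continuous fun θ : ℝ => (K (circleMap 0 1 θ)).re := by
    apply Complex.continuous_re.comp
    rw [← continuousOn_univ]
    exact (hK.continuousOn_ball).comp (continuous_circleMap 0 1).continuousOn
      (fun θ _ => sphere_subset_closedBall (hmem θ))
  intro z hz
  by_contra hne
  have hpos : 0 < (K z).re := lt_of_le_of_ne (h z hz) (Ne.symm hne)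
  obtain ⟨θ, hθ, rfl⟩ : ∃ θ ∈ Ioc (0 : ℝ) (2 * π), circleMap 0 1 θ = z := by
    have : z ∈ circleMap 0 1 '' Ioc 0 (2 * π) := by
      rw [image_circleMap_Ioc]; simpa using hz
    exact this
  have h3 : 0 < ∫ θ in (0 : ℝ)..2 * π, (K (circleMap 0 1 θ)).re := by
    apply intervalIntegral.integral_pos Real.two_pi_pos hc.continuousOn
    · intro x _
      exact h _ (hmem x)
    · exact ⟨θ, ⟨hθ.1.le, hθ.2⟩, hpos⟩
  linarith

/-- The analytic functions of the proof. -/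
lemma key {R₁ R₂ : ℝ} {f : ℂ → ℂ} (hf : InCV R₁ R₂ f) :
    ∃ g₁ q H : ℂ → ℂ, DiffContOnCl ℂ g₁ (ball 0 1) ∧ DiffContOnCl ℂ q (ball 0 1) ∧
      DiffContOnCl ℂ H (ball 0 1) ∧
      (∀ z ∈ ball (0 : ℂ) 1, g₁ z = deriv f z) ∧ (∀ z ∈ closedBall (0 : ℂ) 1, g₁ z ≠ 0) ∧
      (∀ z ∈ sphere (0 : ℂ) 1, R₁ * ‖g₁ z‖ ≤ (1 + z * q z).re ∧ (1 + z * q z).re ≤ R₂ * ‖g₁ z‖) ∧
      (H 0).re = 1 - ‖coef2 f‖ ^ 2 ∧ g₁ 0 = 1 ∧
      (∀ z ∈ sphere (0 : ℂ) 1, (H z).re = (1 + z * q z).re * ‖1 - coef2 f * z‖ ^ 2) := by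
  obtain ⟨g₀, g₁, g₂, -, hc1, hc2, heq, hne, hcur⟩ := hf.bdry
  have hball : IsOpen (ball (0 : ℂ) 1) := isOpen_ball
  have hd1 : DifferentiableOn ℂ (deriv f) (ball 0 1) := hf.diff.deriv hball
  have hd2 : DifferentiableOn ℂ (deriv (deriv f)) (ball 0 1) := hd1.deriv hball
  have hg1 : DiffContOnCl ℂ g₁ (ball 0 1) := by
    refine DiffContOnCl.mk_ball (hd1.congr fun z hz => (heq z hz).2.1) hc1
  have hg2 : DiffContOnCl ℂ g₂ (ball 0 1) := by
    refine DiffContOnCl.mk_ball (hd2.congr fun z hz => (heq z hz).2.2) hc2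
  have h0mem : (0 : ℂ) ∈ ball (0 : ℂ) 1 := by simp
  have hg10 : g₁ 0 = 1 := by rw [(heq 0 h0mem).2.1, hf.one]
  have hinv : DiffContOnCl ℂ (g₁⁻¹) (ball 0 1) := by
    apply hg1.inv
    intro z hz
    apply hne
    rwa [closure_ball _ one_ne_zero] at hz
  set a : ℂ := coef2 f with ha
  have hg20 : g₂ 0 = 2 * a := by
    rw [(heq 0 h0mem).2.2, ha, coef2]; ring
  let q : ℂ → ℂ := g₁⁻¹ • g₂
  have hq : DiffContOnCl ℂ q (ball 0 1) := hinv.smul hg2
  have hqz : ∀ z, q z = g₂ z / g₁ z := by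
    intro z; simp [q, div_eq_inv_mul]
  have hid : DiffContOnCl ℂ (fun z : ℂ => z) (ball 0 1) := differentiable_id.diffContOnCl
  let H : ℂ → ℂ := fun z => (1 + ((‖a‖ ^ 2 : ℝ) : ℂ)) * (1 + z * q z) - a * z * (1 + z * q z)
    - (starRingEnd ℂ) a * q z - a * z
  have hzq : DiffContOnCl ℂ (fun z => 1 + z * q z) (ball 0 1) := (hid.smul hq).const_add 1
  have haz : DiffContOnCl ℂ (fun z => a * z) (ball 0 1) := hid.const_smul a
  have hH : DiffContOnCl ℂ H (ball 0 1) := by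
    have h1 := hzq.const_smul (1 + ((‖a‖ ^ 2 : ℝ) : ℂ))
    have h2 := haz.smul hzq
    have h3 := hq.const_smul ((starRingEnd ℂ) a)
    exact ((h1.sub h2).sub h3).sub haz
  refine ⟨g₁, q, H, hg1, hq, hH, fun z hz => (heq z hz).2.1, hne, ?_, ?_, hg10, ?_⟩
  · intro z hz
    have hz' : g₁ z ≠ 0 := hne z (sphere_subset_closedBall hz)
    have hpos : 0 < ‖g₁ z‖ := norm_pos_iff.2 hz'
    have h := hcur z hz
    unfold curvature at h
    have e : z * g₂ z / g₁ z = z * q z := by rw [hqz]; ring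
    rw [e] at h
    exact ⟨(le_div_iff₀ hpos).1 h.1, (div_le_iff₀ hpos).1 h.2⟩
  · have hq0 : q 0 = 2 * a := by rw [hqz, hg20, hg10, div_one]
    have : H 0 = 1 - ((‖a‖ ^ 2 : ℝ) : ℂ) := by
      simp only [H, hq0]
      have : (starRingEnd ℂ) a * a = ((‖a‖ ^ 2 : ℝ) : ℂ) := by
        rw [mul_comm, Complex.mul_conj, Complex.normSq_eq_norm_sq]
      linear_combination (-2 : ℂ) * this
    rw [this, Complex.sub_re, Complex.one_re, Complex.ofReal_re]
  · intro z hz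
    have hz1 : z.re * z.re + z.im * z.im = 1 := by
      have : ‖z‖ = 1 := by simpa using hz
      have h2 : Complex.normSq z = 1 := by rw [Complex.normSq_eq_norm_sq, this]; norm_num
      simpa [Complex.normSq_apply] using h2
    have hna : ‖a‖ ^ 2 = a.re * a.re + a.im * a.im := by
      rw [← Complex.normSq_eq_norm_sq, Complex.normSq_apply]
    have hn1 : ‖1 - a * z‖ ^ 2 = (1 - a * z).re * (1 - a * z).re + (1 - a * z).im * (1 - a * z).im := by
      rw [← Complex.normSq_eq_norm_sq, Complex.normSq_apply]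
    rw [hn1]
    simp only [H, hna]
    simp only [Complex.sub_re, Complex.mul_re, Complex.add_re, Complex.one_re, Complex.ofReal_re,
      Complex.ofReal_im, Complex.add_im, Complex.one_im, Complex.mul_im, Complex.sub_im,
      Complex.conj_re, Complex.conj_im]
    linear_combination (-((a.re * a.re + a.im * a.im) * (1 + (z.re * (q z).re - z.im * (q z).im))
      - (a.re * (q z).re + a.im * (q z).im))) * hz1

lemma diffF {g₁ : ℂ → ℂ} (hg : DiffContOnCl ℂ g₁ (ball 0 1)) (a : ℂ) :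
    DiffContOnCl ℂ (fun z => g₁ z * (1 - a * z) ^ 2) (ball 0 1) := by
  have h1 : DiffContOnCl ℂ (fun z : ℂ => (1 - a * z) ^ 2) (ball 0 1) := by
    have : Differentiable ℂ (fun z : ℂ => (1 - a * z) ^ 2) := by fun_prop
    exact this.diffContOnCl
  exact hg.smul h1

/-- The bound `|a₂|² ≤ 1 - R₁`. -/
lemma bound {R₁ R₂ : ℝ} (h0 : 0 ≤ R₁) {f : ℂ → ℂ} (hf : InCV R₁ R₂ f) :
    ‖coef2 f‖ ^ 2 ≤ 1 - R₁ := by
  obtain ⟨g₁, q, H, hg1, hq, hH, heq, hne, hcur, hH0, hg10, hHs⟩ := key hf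
  have hK : DiffContOnCl ℂ (fun z => H z - (R₁ : ℂ) * (g₁ z * (1 - coef2 f * z) ^ 2)) (ball 0 1) :=
    hH.sub ((diffF hg1 _).const_smul (R₁ : ℂ))
  have hre := re_nonneg hK (by
    intro z hz
    rw [Complex.sub_re, hHs z hz, Complex.re_ofReal_mul]
    have h1 : (g₁ z * (1 - coef2 f * z) ^ 2).re ≤ ‖g₁ z‖ * ‖1 - coef2 f * z‖ ^ 2 := by
      refine (Complex.re_le_norm _).trans ?_
      rw [norm_mul, norm_pow]
    have h2 := (hcur z hz).1
    have h3 : R₁ * (g₁ z * (1 - coef2 f * z) ^ 2).re ≤ R₁ * (‖g₁ z‖ * ‖1 - coef2 f * z‖ ^ 2) :=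
      mul_le_mul_of_nonneg_left h1 h0
    have h4 : R₁ * ‖g₁ z‖ * ‖1 - coef2 f * z‖ ^ 2 ≤ (1 + z * q z).re * ‖1 - coef2 f * z‖ ^ 2 :=
      mul_le_mul_of_nonneg_right h2 (by positivity)
    nlinarith)
  rw [Complex.sub_re, hH0, Complex.re_ofReal_mul, hg10] at hre
  simp at hre
  linarith

lemma R2_pos {R₁ R₂ : ℝ} {f : ℂ → ℂ} (hf : InCV R₁ R₂ f) : 0 < R₂ := by
  obtain ⟨g₁, q, H, hg1, hq, hH, heq, hne, hcur, hH0, hg10, hHs⟩ := key hf
  by_contra hR
  push Not at hR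
  have hid : DiffContOnCl ℂ (fun z : ℂ => z) (ball 0 1) := differentiable_id.diffContOnCl
  have hzq : DiffContOnCl ℂ (fun z => -(1 + z * q z)) (ball 0 1) := ((hid.smul hq).const_add 1).neg
  have hre := re_nonneg hzq (by
    intro z hz
    rw [Complex.neg_re]
    have := (hcur z hz).2
    have : R₂ * ‖g₁ z‖ ≤ 0 := mul_nonpos_of_nonpos_of_nonneg hR (norm_nonneg _)
    linarith)
  simp at hre
  linarith

lemma strict {R₂ : ℝ} {f : ℂ → ℂ} (hf : InCV 0 R₂ f) : ‖coef2 f‖ < 1 := by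
  have hb := bound le_rfl hf
  obtain ⟨g₁, q, H, hg1, hq, hH, heq, hne, hcur, hH0, hg10, hHs⟩ := key hf
  by_contra hlt
  push Not at hlt
  have hna : ‖coef2 f‖ ^ 2 = 1 := by nlinarith [norm_nonneg (coef2 f)]
  rw [hna, sub_self] at hH0
  have hz0 := re_zero hH (fun z hz => by
    rw [hHs z hz]
    have := (hcur z hz).1
    rw [zero_mul] at this
    positivity) hH0
  have hid : DiffContOnCl ℂ (fun z : ℂ => z) (ball 0 1) := differentiable_id.diffContOnCl
  have hzq : DiffContOnCl ℂ (fun z => 1 + z * q z) (ball 0 1) := (hid.smul hq).const_add 1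
  have hav := avg_re hzq
  -- the exceptional point
  set w : ℂ := (coef2 f)⁻¹ with hw
  have hca : coef2 f ≠ 0 := by
    intro h; rw [h] at hna; simp at hna
  have hav2 : circleAverage (fun z => (1 + z * q z).re) 0 1 = circleAverage (fun _ : ℂ => (0 : ℝ)) 0 1 := by
    apply circleAverage_congr_codiscreteWithin _ one_ne_zero
    have hcod : ({w}ᶜ : Set ℂ) ∈ Filter.codiscreteWithin (sphere (0 : ℂ) |1|) := by
      have h1 : ({w}ᶜ : Set ℂ) ∈ Filter.codiscrete ℂ := by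
        rw [mem_codiscrete']
        refine ⟨isOpen_compl_singleton, ?_⟩
        rw [compl_compl]
        exact (Set.finite_singleton w).isDiscrete
      exact Filter.codiscreteWithin_mono (subset_univ _) h1
    filter_upwards [hcod, Filter.self_mem_codiscreteWithin (sphere (0 : ℂ) |1|)] with z hz hzs
    have hzs' : z ∈ sphere (0 : ℂ) 1 := by simpa using hzs
    have h1 := hz0 z hzs'
    rw [hHs z hzs'] at h1
    rcases mul_eq_zero.1 h1 with h | h
    · exact h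
    · exfalso
      have h2 : 1 - coef2 f * z = 0 := by
        simpa using h
      apply hz
      rw [mem_singleton_iff, hw]
      field_simp
      linear_combination -h2
  rw [hav2, circleAverage_const] at hav
  simp at hav

/-- The extremal functions. -/
lemma extremal {R₁ R₂ : ℝ} (h0 : 0 < R₁) {f : ℂ → ℂ} (hf : InCV R₁ R₂ f)
    (h : ‖coef2 f‖ ^ 2 = 1 - R₁) : ∀ z ∈ ball (0 : ℂ) 1, f z = z / (1 - coef2 f * z) := by
  obtain ⟨g₁, q, H, hg1, hq, hH, heq, hne, hcur, hH0, hg10, hHs⟩ := key hf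
  set a := coef2 f with ha
  have ha1 : ‖a‖ < 1 := by nlinarith [norm_nonneg a]
  have hF := diffF hg1 a
  have hK : DiffContOnCl ℂ (fun z => H z - (R₁ : ℂ) * (g₁ z * (1 - a * z) ^ 2)) (ball 0 1) :=
    hH.sub (hF.const_smul (R₁ : ℂ))
  have hpt : ∀ z ∈ sphere (0 : ℂ) 1, R₁ * (‖g₁ z‖ * ‖1 - a * z‖ ^ 2) ≤ (H z).re := by
    intro z hz
    rw [hHs z hz]
    have h2 := (hcur z hz).1
    have h4 : R₁ * ‖g₁ z‖ * ‖1 - a * z‖ ^ 2 ≤ (1 + z * q z).re * ‖1 - a * z‖ ^ 2 :=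
      mul_le_mul_of_nonneg_right h2 (by positivity)
    linarith
  have hre : ∀ z, (g₁ z * (1 - a * z) ^ 2).re ≤ ‖g₁ z‖ * ‖1 - a * z‖ ^ 2 := by
    intro z
    refine (Complex.re_le_norm _).trans ?_
    rw [norm_mul, norm_pow]
  have hz0 := re_zero hK (by
    intro z hz
    rw [Complex.sub_re, Complex.re_ofReal_mul]
    have h3 := mul_le_mul_of_nonneg_left (hre z) h0.le
    linarith [hpt z hz]) (by
    rw [Complex.sub_re, hH0, Complex.re_ofReal_mul, hg10, h]; simp)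
  -- on the circle `F` is real
  have him : ∀ z ∈ sphere (0 : ℂ) 1, (g₁ z * (1 - a * z) ^ 2).im = 0 := by
    intro z hz
    have h1 := hz0 z hz
    rw [Complex.sub_re, Complex.re_ofReal_mul] at h1
    have h2 := hpt z hz
    have h3 : R₁ * ‖g₁ z * (1 - a * z) ^ 2‖ ≤ R₁ * (g₁ z * (1 - a * z) ^ 2).re := by
      rw [norm_mul, norm_pow]; linarith
    have h4 : ‖g₁ z * (1 - a * z) ^ 2‖ ≤ (g₁ z * (1 - a * z) ^ 2).re := le_of_mul_le_mul_left h3 h0
    have h5 : ‖g₁ z * (1 - a * z) ^ 2‖ ^ 2 = (g₁ z * (1 - a * z) ^ 2).re ^ 2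
        + (g₁ z * (1 - a * z) ^ 2).im ^ 2 := by
      rw [← Complex.normSq_eq_norm_sq, Complex.normSq_apply]; ring
    have h6 : (g₁ z * (1 - a * z) ^ 2).re ≤ ‖g₁ z * (1 - a * z) ^ 2‖ := Complex.re_le_norm _
    have h7 : (g₁ z * (1 - a * z) ^ 2).im ^ 2 = 0 := by
      have : ‖g₁ z * (1 - a * z) ^ 2‖ = (g₁ z * (1 - a * z) ^ 2).re := le_antisymm h4 h6
      rw [this] at h5; linarith
    exact pow_eq_zero_iff (two_ne_zero) |>.1 h7
  -- `(F - 1)²` has mean zero and is nonnegative on the circle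
  let L : ℂ → ℂ := fun z => g₁ z * (1 - a * z) ^ 2 - 1
  have hL : DiffContOnCl ℂ L (ball 0 1) := hF.sub_const 1
  have hL2 : DiffContOnCl ℂ (fun z => L z * L z) (ball 0 1) := hL.smul hL
  have hLim : ∀ z ∈ sphere (0 : ℂ) 1, (L z).im = 0 := by
    intro z hz
    simp only [L, Complex.sub_im, Complex.one_im, him z hz, sub_zero]
  have hLz := re_zero hL2 (by
    intro z hz
    rw [Complex.mul_re, hLim z hz]; nlinarith [sq_nonneg (L z).re]) (by
    simp [L, hg10])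
  have hLs : ∀ z ∈ sphere (0 : ℂ) 1, L z = 0 := by
    intro z hz
    have h1 := hLz z hz
    rw [Complex.mul_re, hLim z hz] at h1
    apply Complex.ext
    · have : (L z).re * (L z).re = 0 := by linarith
      simpa using this
    · simpa using hLim z hz
  have hL0 : EqOn L (fun _ => 0) (closure (ball (0 : ℂ) 1)) := by
    apply Complex.eqOn_closure_of_eqOn_frontier isBounded_ball hL diffContOnCl_const
    intro z hz
    rw [frontier_ball _ one_ne_zero] at hz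
    exact hLs z hz
  have hder : ∀ z ∈ ball (0 : ℂ) 1, deriv f z = 1 / (1 - a * z) ^ 2 := by
    intro z hz
    have h1 := hL0 (subset_closure hz)
    simp only [L] at h1
    have hne1 : (1 - a * z) ≠ 0 := by
      intro h2
      have h3 : ‖a * z‖ = 1 := by
        have : a * z = 1 := by linear_combination -h2
        rw [this]; simp
      rw [norm_mul] at h3
      have hz' : ‖z‖ < 1 := by simpa using hz
      nlinarith [norm_nonneg a, norm_nonneg z]
    rw [← heq z hz, eq_div_iff (pow_ne_zero 2 hne1)]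
    linear_combination h1
  -- integrate
  have hopen : IsOpen (ball (0 : ℂ) 1) := isOpen_ball
  have hconv : IsPreconnected (ball (0 : ℂ) 1) := (convex_ball (0 : ℂ) 1).isPreconnected
  have hne1 : ∀ z ∈ ball (0 : ℂ) 1, (1 - a * z) ≠ 0 := by
    intro z hz h2
    have h3 : ‖a * z‖ = 1 := by
      have : a * z = 1 := by linear_combination -h2
      rw [this]; simp
    rw [norm_mul] at h3
    have hz' : ‖z‖ < 1 := by simpa using hz
    nlinarith [norm_nonneg a, norm_nonneg z]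
  have hderG : ∀ z ∈ ball (0 : ℂ) 1, HasDerivAt (fun w : ℂ => w / (1 - a * w)) (1 / (1 - a * z) ^ 2) z := by
    intro z hz
    have h1 : HasDerivAt (fun w : ℂ => 1 - a * w) (-a) z := by
      simpa using ((hasDerivAt_id z).const_mul a).const_sub 1
    have h2 := (hasDerivAt_id z).div h1 (hne1 z hz)
    have hz2 := hne1 z hz
    refine h2.congr_deriv ?_
    simp only [id]
    field_simp
    ring
  have hdG : DifferentiableOn ℂ (fun w : ℂ => w / (1 - a * w)) (ball 0 1) := fun z hz =>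
    (hderG z hz).differentiableAt.differentiableWithinAt
  have := hopen.eqOn_of_deriv_eq hconv hf.diff hdG (by
    intro z hz
    rw [hder z hz, (hderG z hz).deriv]) (x := 0) (by simp) (by simp [hf.zero])
  exact this

/-! ### The discs -/

lemma den_ne {c : ℝ} (hc0 : 0 ≤ c) (hc1 : c < 1) {z : ℂ} (hz : z ∈ closedBall (0 : ℂ) 1) :
    (1 - (c : ℂ) * z) ≠ 0 := by
  intro h2
  have h3 : ‖(c : ℂ) * z‖ = 1 := by
    have : (c : ℂ) * z = 1 := by linear_combination -h2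
    rw [this]; simp
  rw [norm_mul, Complex.norm_real, Real.norm_eq_abs, abs_of_nonneg hc0] at h3
  have hz' : ‖z‖ ≤ 1 := by simpa using hz
  nlinarith [norm_nonneg z]

lemma den_ne' {c : ℝ} (hc0 : 0 ≤ c) (hc1 : c < 1) {w : ℂ} (h : -1 < 2 * c * w.re + (c ^ 2 - 1) * ‖w‖ ^ 2) :
    (1 + (c : ℂ) * w) ≠ 0 := by
  intro h2
  have h3 : (c : ℂ) * w = -1 := by linear_combination h2
  have h4 : c * w.re = -1 := by
    have := congrArg Complex.re h3
    simpa using this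
  have h5 : 0 ≤ (1 - c ^ 2) * ‖w‖ ^ 2 := by
    have : c ^ 2 ≤ 1 := by nlinarith
    have : 0 ≤ 1 - c ^ 2 := by linarith
    positivity
  nlinarith

lemma sq_ident (c : ℝ) (w : ℂ) :
    ‖1 + (c : ℂ) * w‖ ^ 2 = 1 + 2 * c * w.re + c ^ 2 * ‖w‖ ^ 2 := by
  rw [← Complex.normSq_eq_norm_sq, ← Complex.normSq_eq_norm_sq, Complex.normSq_apply,
    Complex.normSq_apply]
  simp
  ring

/-- The image of the disc under `z ↦ z / (1 - c z)` is a disc. -/
lemma image_disc {c : ℝ} (hc0 : 0 ≤ c) (hc1 : c < 1) :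
    (fun z : ℂ => z / (1 - (c : ℂ) * z)) '' ball 0 1 =
      ball ((c / (1 - c ^ 2) : ℝ) : ℂ) (1 / (1 - c ^ 2)) := by
  have hk : 0 < 1 - c ^ 2 := by nlinarith
  have hiff : ∀ w : ℂ, w ∈ ball ((c / (1 - c ^ 2) : ℝ) : ℂ) (1 / (1 - c ^ 2)) ↔
      -1 < 2 * c * w.re + (c ^ 2 - 1) * ‖w‖ ^ 2 := by
    intro w
    rw [mem_ball, dist_eq_norm]
    have h1 : ‖w - ((c / (1 - c ^ 2) : ℝ) : ℂ)‖ ^ 2 =
        ‖w‖ ^ 2 - 2 * (c / (1 - c ^ 2)) * w.re + (c / (1 - c ^ 2)) ^ 2 := by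
      rw [← Complex.normSq_eq_norm_sq, ← Complex.normSq_eq_norm_sq, Complex.normSq_apply,
        Complex.normSq_apply]
      simp only [Complex.sub_re, Complex.ofReal_re, Complex.sub_im, Complex.ofReal_im]
      ring
    have h2 : ‖w - ((c / (1 - c ^ 2) : ℝ) : ℂ)‖ < 1 / (1 - c ^ 2) ↔
        ‖w - ((c / (1 - c ^ 2) : ℝ) : ℂ)‖ ^ 2 < (1 / (1 - c ^ 2)) ^ 2 := by
      rw [sq_lt_sq₀ (norm_nonneg _) (by positivity)]
    rw [h2, h1]
    have h3 : (1 / (1 - c ^ 2)) ^ 2 - (c / (1 - c ^ 2)) ^ 2 = 1 / (1 - c ^ 2) := by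
      field_simp
    have h4 : ‖w‖ ^ 2 - 2 * (c / (1 - c ^ 2)) * w.re + (c / (1 - c ^ 2)) ^ 2 < (1 / (1 - c ^ 2)) ^ 2
        ↔ (‖w‖ ^ 2 - 2 * (c / (1 - c ^ 2)) * w.re) < 1 / (1 - c ^ 2) := by
      constructor <;> intro h <;> linarith
    rw [h4, lt_div_iff₀ hk]
    have h5 : (‖w‖ ^ 2 - 2 * (c / (1 - c ^ 2)) * w.re) * (1 - c ^ 2) =
        (1 - c ^ 2) * ‖w‖ ^ 2 - 2 * c * w.re := by
      field_simp
    rw [h5]
    constructor <;> intro h <;> linarith
  ext w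
  rw [hiff]
  constructor
  · rintro ⟨z, hz, rfl⟩
    have hne := den_ne hc0 hc1 (ball_subset_closedBall hz)
    set w : ℂ := z / (1 - (c : ℂ) * z) with hw
    have hz1 : ‖z‖ < 1 := by simpa using hz
    have e : z = w / (1 + (c : ℂ) * w) ∧ (1 + (c : ℂ) * w) ≠ 0 := by
      have h1 : (1 + (c : ℂ) * w) = 1 / (1 - (c : ℂ) * z) := by
        rw [hw]; field_simp; ring
      constructor
      · rw [h1, hw, div_div_eq_mul_div, div_one, div_mul_cancel₀ _ hne]
      · rw [h1]; exact one_div_ne_zero hne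
    have h2 : ‖w‖ < ‖1 + (c : ℂ) * w‖ := by
      rw [e.1, norm_div, div_lt_one (norm_pos_iff.2 e.2)] at hz1
      exact hz1
    have h3 : ‖w‖ ^ 2 < ‖1 + (c : ℂ) * w‖ ^ 2 := by
      have := norm_nonneg w
      nlinarith
    rw [sq_ident] at h3
    show -1 < 2 * c * w.re + (c ^ 2 - 1) * ‖w‖ ^ 2
    linarith
  · intro h
    have hne := den_ne' hc0 hc1 h
    refine ⟨w / (1 + (c : ℂ) * w), ?_, ?_⟩
    · rw [mem_ball_zero_iff, norm_div, div_lt_one (norm_pos_iff.2 hne)]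
      have : ‖w‖ ^ 2 < ‖1 + (c : ℂ) * w‖ ^ 2 := by rw [sq_ident]; linarith
      exact lt_of_pow_lt_pow_left₀ 2 (norm_nonneg _) this
    · have h1 : 1 - (c : ℂ) * (w / (1 + (c : ℂ) * w)) = 1 / (1 + (c : ℂ) * w) := by
        field_simp
        ring
      show w / (1 + (c : ℂ) * w) / (1 - (c : ℂ) * (w / (1 + (c : ℂ) * w))) = w
      rw [h1, div_div_eq_mul_div, div_one, div_mul_cancel₀ _ hne]

lemma hasDeriv_disc {c : ℂ} {z : ℂ} (h : 1 - c * z ≠ 0) :
    HasDerivAt (fun w : ℂ => w / (1 - c * w)) (1 / (1 - c * z) ^ 2) z := by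
  have h1 : HasDerivAt (fun w : ℂ => 1 - c * w) (-c) z := by
    simpa using ((hasDerivAt_id z).const_mul c).const_sub 1
  have h2 := (hasDerivAt_id z).div h1 h
  refine h2.congr_deriv ?_
  simp only [id]
  field_simp
  ring

lemma hasDeriv2_disc {c : ℂ} {z : ℂ} (h : 1 - c * z ≠ 0) :
    HasDerivAt (fun w : ℂ => 1 / (1 - c * w) ^ 2) (2 * c / (1 - c * z) ^ 3) z := by
  have h1 : HasDerivAt (fun w : ℂ => 1 - c * w) (-c) z := by
    simpa using ((hasDerivAt_id z).const_mul c).const_sub 1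
  have h2 := (hasDerivAt_const z (1 : ℂ)).div (h1.pow 2) (pow_ne_zero 2 h)
  refine h2.congr_deriv ?_
  simp only [Pi.pow_apply]
  field_simp
  ring

lemma coef_of_eq {c : ℂ} {f : ℂ → ℂ}
    (h : ∀ z ∈ ball (0 : ℂ) 1, f z = z / (1 - c * z)) : coef2 f = c := by
  have hopen : ∀ᶠ z in nhds (0 : ℂ), z ∈ ball (0 : ℂ) 1 := isOpen_ball.mem_nhds (by simp)
  have hne : ∀ᶠ z in nhds (0 : ℂ), 1 - c * z ≠ 0 := by
    have : ContinuousAt (fun z : ℂ => 1 - c * z) 0 := by fun_prop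
    exact this.eventually_ne (by simp)
  have h1 : ∀ᶠ z in nhds (0 : ℂ), deriv f z = 1 / (1 - c * z) ^ 2 := by
    have h2 : ∀ᶠ z in nhds (0 : ℂ), f =ᶠ[nhds z] fun w => w / (1 - c * w) := by
      have := hopen.eventually_nhds
      filter_upwards [this] with z hz
      filter_upwards [hz] with w hw
      exact h w hw
    filter_upwards [h2, hne] with z hz hz2
    rw [hz.deriv_eq, (hasDeriv_disc hz2).deriv]
  have h3 : deriv (deriv f) 0 = 2 * c := by
    rw [Filter.EventuallyEq.deriv_eq h1, (hasDeriv2_disc (by simp)).deriv]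
    simp
  rw [coef2, h3]; ring

lemma mem_disc {R₁ R₂ c : ℝ} (hc0 : 0 ≤ c) (hc1 : c < 1) (h1 : R₁ ≤ 1 - c ^ 2) (h2 : 1 - c ^ 2 ≤ R₂) :
    InCV R₁ R₂ (fun z : ℂ => z / (1 - (c : ℂ) * z)) := by
  have hk : 0 < 1 - c ^ 2 := by nlinarith
  have hne : ∀ z ∈ closedBall (0 : ℂ) 1, 1 - (c : ℂ) * z ≠ 0 := fun z hz => den_ne hc0 hc1 hz
  have hneb : ∀ z ∈ ball (0 : ℂ) 1, 1 - (c : ℂ) * z ≠ 0 := fun z hz =>
    hne z (ball_subset_closedBall hz)
  have hder : ∀ z ∈ ball (0 : ℂ) 1, deriv (fun z : ℂ => z / (1 - (c : ℂ) * z)) z =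
      1 / (1 - (c : ℂ) * z) ^ 2 := fun z hz => (hasDeriv_disc (hneb z hz)).deriv
  constructor
  · intro z hz
    exact (hasDeriv_disc (hneb z hz)).differentiableAt.differentiableWithinAt
  · intro z hz w hw hzw
    have h3 := hneb z hz
    have h4 := hneb w hw
    simp only at hzw
    rw [div_eq_div_iff h3 h4] at hzw
    linear_combination hzw
  · rw [image_disc hc0 hc1]
    exact convex_ball _ _
  · simp
  · rw [hder 0 (by simp)]; simp
  · refine ⟨fun z => z / (1 - (c : ℂ) * z), fun z => 1 / (1 - (c : ℂ) * z) ^ 2,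
      fun z => 2 * (c : ℂ) / (1 - (c : ℂ) * z) ^ 3, ?_, ?_, ?_, ?_, ?_, ?_⟩
    · apply ContinuousOn.div (by fun_prop) (by fun_prop) hne
    · apply ContinuousOn.div (by fun_prop) (by fun_prop)
      intro z hz; exact pow_ne_zero 2 (hne z hz)
    · apply ContinuousOn.div (by fun_prop) (by fun_prop)
      intro z hz; exact pow_ne_zero 3 (hne z hz)
    · intro z hz
      refine ⟨rfl, (hder z hz).symm, ?_⟩
      have : deriv (fun z : ℂ => z / (1 - (c : ℂ) * z)) =ᶠ[nhds z]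
          fun z => 1 / (1 - (c : ℂ) * z) ^ 2 := by
        filter_upwards [isOpen_ball.mem_nhds hz] with w hw
        exact hder w hw
      rw [this.deriv_eq, (hasDeriv2_disc (hneb z hz)).deriv]
    · intro z hz
      exact one_div_ne_zero (pow_ne_zero 2 (hne z hz))
    · intro z hz
      have hz1 : ‖z‖ = 1 := by simpa using hz
      have h3 := hne z (sphere_subset_closedBall hz)
      have hcurv : curvature (fun z => 1 / (1 - (c : ℂ) * z) ^ 2)
          (fun z => 2 * (c : ℂ) / (1 - (c : ℂ) * z) ^ 3) z = 1 - c ^ 2 := by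
        unfold curvature
        have e1 : 1 + z * (2 * (c : ℂ) / (1 - (c : ℂ) * z) ^ 3) / (1 / (1 - (c : ℂ) * z) ^ 2) =
            (1 + (c : ℂ) * z) / (1 - (c : ℂ) * z) := by
          set D : ℂ := 1 - (c : ℂ) * z with hD
          have hcz : (c : ℂ) * z = 1 - D := by rw [hD]; ring
          have e3 : z * (2 * (c : ℂ) / D ^ 3) / (1 / D ^ 2) = 2 * (1 - D) / D := by
            rw [← hcz]
            field_simp
          rw [e3, hcz]
          field_simp
          ring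
        have hn : 0 < ‖1 - (c : ℂ) * z‖ := norm_pos_iff.2 h3
        have e2 : ((1 + (c : ℂ) * z) / (1 - (c : ℂ) * z)).re = (1 - c ^ 2) / ‖1 - (c : ℂ) * z‖ ^ 2 := by
          rw [Complex.div_re, ← Complex.normSq_eq_norm_sq, ← add_div]
          congr 1
          have hz2 : z.re * z.re + z.im * z.im = 1 := by
            have h2 : Complex.normSq z = 1 := by rw [Complex.normSq_eq_norm_sq, hz1]; norm_num
            simpa [Complex.normSq_apply] using h2
          simp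
          linear_combination (-c ^ 2) * hz2
        rw [e1, e2, norm_div, norm_one, norm_pow]
        field_simp
      rw [hcurv]
      exact ⟨h1, h2⟩

/-- **The sharp bound for the second coefficient in `CV(R₁, R₂)`.**  For all `0 ≤ R₁ ≤ R₂`:
the class is nonempty exactly if `R₁ ≤ 1` and `0 < R₂`; in that case `A(R₁, R₂) = √(1 - R₁)`,
independently of `R₂`; for `R₁ > 0` the supremum is attained, exactly by the functions of the class
that are of the form `z / (1 - c z)` with `|c| = √(1 - R₁)`; for `R₁ = 0` it is not attained. -/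
theorem result (R₁ R₂ : ℝ) (h0 : 0 ≤ R₁) (h12 : R₁ ≤ R₂) :
    ((∃ f, InCV R₁ R₂ f) ↔ R₁ ≤ 1 ∧ 0 < R₂) ∧
    ((∃ f, InCV R₁ R₂ f) → IsLUB {t : ℝ | ∃ f, InCV R₁ R₂ f ∧ t = ‖coef2 f‖} (√(1 - R₁))) ∧
    ((∃ f, InCV R₁ R₂ f ∧ ‖coef2 f‖ = √(1 - R₁)) ↔ 0 < R₁ ∧ R₁ ≤ 1) ∧
    (∀ f, InCV R₁ R₂ f → (‖coef2 f‖ = √(1 - R₁) ↔
      0 < R₁ ∧ ∃ c : ℂ, ‖c‖ = √(1 - R₁) ∧ ∀ z ∈ ball (0 : ℂ) 1, f z = z / (1 - c * z))) := by
  have hex : R₁ ≤ 1 → 0 < R₂ → ∀ k : ℝ, 0 < k → k ≤ 1 → R₁ ≤ k → k ≤ R₂ →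
      InCV R₁ R₂ (fun z : ℂ => z / (1 - ((√(1 - k) : ℝ) : ℂ) * z)) := by
    intro _ _ k hk0 hk1 hk2 hk3
    have hs : √(1 - k) ^ 2 = 1 - k := Real.sq_sqrt (by linarith)
    apply mem_disc (Real.sqrt_nonneg _)
    · rw [Real.sqrt_lt' one_pos]; linarith
    · rw [hs]; linarith
    · rw [hs]; linarith
  have hcoef : ∀ k : ℝ, ‖coef2 (fun z : ℂ => z / (1 - ((√(1 - k) : ℝ) : ℂ) * z))‖ = √(1 - k) := by
    intro k
    rw [coef_of_eq (c := ((√(1 - k) : ℝ) : ℂ)) (fun z _ => rfl), Complex.norm_real,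
      Real.norm_of_nonneg (Real.sqrt_nonneg _)]
  have hne : (∃ f, InCV R₁ R₂ f) ↔ R₁ ≤ 1 ∧ 0 < R₂ := by
    constructor
    · rintro ⟨f, hf⟩
      have := bound h0 hf
      exact ⟨by nlinarith [sq_nonneg ‖coef2 f‖], R2_pos hf⟩
    · rintro ⟨h1, h2⟩
      rcases h0.lt_or_eq with h | h
      · exact ⟨_, hex h1 h2 R₁ h h1 le_rfl h12⟩
      · exact ⟨_, hex h1 h2 (min R₂ 1) (lt_min h2 one_pos) (min_le_right _ _)
          (by rw [← h]; exact (lt_min h2 one_pos).le) (min_le_left _ _)⟩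
  have hup : ∀ f, InCV R₁ R₂ f → ‖coef2 f‖ ≤ √(1 - R₁) := by
    intro f hf
    exact Real.le_sqrt_of_sq_le (bound h0 hf)
  have hiff : ∀ f, InCV R₁ R₂ f → (‖coef2 f‖ = √(1 - R₁) ↔
      0 < R₁ ∧ ∃ c : ℂ, ‖c‖ = √(1 - R₁) ∧ ∀ z ∈ ball (0 : ℂ) 1, f z = z / (1 - c * z)) := by
    intro f hf
    have hR1 : R₁ ≤ 1 := (hne.1 ⟨f, hf⟩).1
    constructor
    · intro h
      have hpos : 0 < R₁ := by
        rcases h0.lt_or_eq with h' | h'
        · exact h'
        · exfalso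
          subst h'
          have := strict hf
          rw [h] at this
          simp at this
      refine ⟨hpos, coef2 f, h, extremal hpos hf ?_⟩
      rw [h, Real.sq_sqrt (by linarith)]
    · rintro ⟨_, c, hc, hfc⟩
      rw [coef_of_eq hfc, hc]
  refine ⟨hne, ?_, ?_, hiff⟩
  · intro hE
    obtain ⟨h1, h2⟩ := hne.1 hE
    constructor
    · rintro t ⟨f, hf, rfl⟩
      exact hup f hf
    · intro b hb
      have hb' : ∀ k : ℝ, 0 < k → k ≤ 1 → R₁ ≤ k → k ≤ R₂ → √(1 - k) ≤ b := by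
        intro k hk0 hk1 hk2 hk3
        exact hb ⟨_, hex h1 h2 k hk0 hk1 hk2 hk3, (hcoef k).symm⟩
      rcases h0.lt_or_eq with h | h
      · exact hb' R₁ h h1 le_rfl h12
      · subst h
        have hlim : Filter.Tendsto (fun k : ℝ => √(1 - k)) (nhdsWithin 0 (Ioi 0)) (nhds √(1 - 0)) := by
          apply Filter.Tendsto.mono_left _ nhdsWithin_le_nhds
          have : Continuous fun k : ℝ => √(1 - k) := by fun_prop
          exact this.tendsto 0
        apply le_of_tendsto hlim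
        have : Ioc (0 : ℝ) (min R₂ 1) ∈ nhdsWithin (0 : ℝ) (Ioi 0) :=
          Ioc_mem_nhdsGT (lt_min h2 one_pos)
        filter_upwards [this] with k hk
        exact hb' k hk.1 (hk.2.trans (min_le_right _ _)) hk.1.le (hk.2.trans (min_le_left _ _))
  · constructor
    · rintro ⟨f, hf, h⟩
      exact ⟨((hiff f hf).1 h).1, (hne.1 ⟨f, hf⟩).1⟩
    · rintro ⟨h, h1⟩
      exact ⟨_, hex h1 (h.trans_le h12) R₁ h h1 le_rfl h12, hcoef R₁⟩

end Pool.Agent.Results.MP_2970b2_an.SecondCoefficient
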